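import Pool.Agent.Lib.UdB.MultFinal
import Pool.Agent.Lib.UdB.ItoUniq4
import Pool.Agent.Lib.UdB.Exist

/-!
# `θ` need not be invertible for an adapted multiplicator which is continuous in time

The construction (dimension `n = 2`, `ℝ² = ℂ`): the time interval `(0,1]` is divided into blocks
`i = 0, 1, 2, …` accumulating at time `0`, block `i` into `M i` cells.  On a cell the process `U` is a
rotation by the angle `(π/(i+1)) χ A` (up to a tent function of time), `χ` a smooth indicator of a rare
event of the beginning of the cell and `A` the message, a bit with values in `[0,1]`, of the earlier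
block `i+1`.  The message of block `i` is the sign of `Re(η^(i+1))`, `η` the increment in the last
activated cell of block `i`.  The measure preserving map which multiplies the increments by
`exp(i (π/(i+1)) χ (1 - 2A))` flips all messages and does not change `β = ∫ U⁻¹ dB`, so the
message of block `0` is not a function of `β`.
-/

set_option autoImplicit false

open MeasureTheory Pool.Agent.Lib.UdB

namespace Pool.Agent.Results.MP_ddd117_pr.ThetaNotInvertible

/-- **There is an adapted multiplicator, continuous in time, whose `θ` is not invertible.** -/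
theorem result :
    (∃ P : Measure (Path ℂ), IsWiener P) ∧
    ∀ P : Measure (Path ℂ), IsWiener P →
      ∃ U : unitInterval → Path ℂ → (ℂ ≃ₗᵢ[ℝ] ℂ),
        (∀ (ω : Path ℂ) (z : ℂ), Continuous fun t => U t ω z) ∧
        IsAdaptedMultiplicator P U ∧
        (∃ β : Path ℂ → Path ℂ, IsBeta P U β) ∧
        ∀ β : Path ℂ → Path ℂ, IsBeta P U β → MeasurePreserving β P P ∧ ¬ ThetaInvertible P β := by
  refine ⟨exists_isWiener ℂ, fun P hP => ⟨U₀, continuous_U₀, ⟨adapted_U₀, fun ι _ b =>
    isMultiplicator_U₀ hP b⟩, ⟨beta₀, isBeta_beta₀ hP⟩, fun β hβ => ?_⟩⟩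
  have h := isBeta_unique hP hβ (isBeta_beta₀ hP)
  refine ⟨⟨hβ.1, ?_⟩, not_thetaInvertible hP h⟩
  have h0 : MeasurePreserving beta₀ P P := D₀.invP.measurePreserving hP
  rw [Measure.map_congr h, h0.map_eq]

end Pool.Agent.Results.MP_ddd117_pr.ThetaNotInvertible
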